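import Pool.Agent.H96.EM.B
import Pool.Agent.H96.PR.G
import Pool.Graph.R_seed8.TH894.SM0

/-!
# The order of magnitude of the Goldbach representation numbers for almost all members of arbitrary thin families in the
# residue classes of EVERY modulus `q ≤ x ^ (7 / 10 - ρ)`

Let `q ≤ x ^ (7 / 10 - ρ)` be any modulus and `a (mod q)` any residue class, `gcd(a, q)` at most a power of `log x`. Let
`n i ≤ x` be any family of integers of this class whose additive energy of some order is at most a power of `log x` times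
the minimal possible value for families in this class. Almost all even members of the family have at
least `n² / (40 φ(n) log² n)` representations as a sum of two primes, and the same is true in all windows. For instance
this holds for almost all even numbers of the form `a + q f(m)`, where `f` is a fixed nonconstant polynomial and `m`
runs over the integers or the primes up to `X`, `X ^ deg f` of the order of `x / q`: the coefficients of the
polynomials `a + q f` may be as large as `x ^ (7 / 10 - ρ)`, and everything is uniform in them.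

Proof. The library contains, for the errors in a decomposition of the primes, an estimate for their mean square over
all members of the residue class (project GS of helper460, helper453, helper461 and helper462, `Pool.Agent.R460.GS`).
From such an estimate and the trivial bound for the mean value of the generating function of the
residue class one obtains an estimate for the members of the family, by the inequality of Hölder and a bound for a high
moment of the exponential sums over the family.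
-/

set_option autoImplicit false

namespace Pool.Agent.Results.MP_629a14_nt.FamiliesInEveryClass

open Finset

/-- The additive energy of order `h` of a finite family of integers: the number of the solutions of
`v (i 1) + ... + v (i h) = v (j 1) + ... + v (j h)`. -/
noncomputable def energy (h : ℕ) {ι : Type} [Fintype ι] (v : ι → ℤ) : ℕ :=
  Nat.card {q : (Fin h → ι) × (Fin h → ι) // ∑ j, v (q.1 j) = ∑ j, v (q.2 j)}

/-- the number of ordered representations of `n` as a sum of two primes -/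
def r₂ (n : ℕ) : ℕ := ((antidiagonal n).filter (fun q : ℕ × ℕ => q.1.Prime ∧ q.2.Prime)).card

/-- (1) `n² / (φ(n) log² n)` is at most `40` times the number of ordered representations of `n` as a sum of
two primes; (2) more generally in every window `(y₁, y₂]` with `y₂ ≤ n` of length at least `n / (log n)^A`
there are at least `(y₂ - y₁) n / (40 φ(n) log² n)` primes `p` such that `n - p` is a prime. -/
def Holds (A n : ℕ) : Prop :=
  1 / 40 * ((n : ℝ) ^ 2 / (n.totient * Real.log n ^ 2)) ≤ r₂ n ∧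
  ∀ y₁ y₂ : ℕ, y₁ < y₂ → y₂ ≤ n → (n : ℝ) / Real.log n ^ A ≤ (y₂ : ℝ) - y₁ →
    1 / 40 * (((y₂ : ℝ) - y₁) * n / (n.totient * Real.log n ^ 2)) ≤
      (((Ioc y₁ y₂).filter (fun p => p.Prime ∧ (n - p).Prime)).card : ℝ)

/-- `n > 2` is even and does not satisfy `Holds A`. -/
def Exceptional (A n : ℕ) : Prop := 2 < n ∧ 2 ∣ n ∧ ¬ Holds A n

lemma card_eq (n : ℕ) : r₂ n = ((Ioc 0 n).filter (fun p => p.Prime ∧ (n - p).Prime)).card := by
  unfold r₂
  symm
  apply card_bij' (fun p _ => (p, n - p)) (fun q _ => q.1)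
  · intro p hp
    rw [mem_filter, mem_Ioc] at hp
    rw [mem_filter, HasAntidiagonal.mem_antidiagonal]
    exact ⟨by simp only; omega, hp.2⟩
  · intro q hq
    rw [mem_filter, HasAntidiagonal.mem_antidiagonal] at hq
    have := hq.2.1.pos
    rw [mem_filter, mem_Ioc]
    refine ⟨⟨this, by omega⟩, hq.2.1, ?_⟩
    have e : n - q.1 = q.2 := by omega
    rw [e]
    exact hq.2.2
  · intro p _
    rfl
  · intro q hq
    rw [mem_filter, HasAntidiagonal.mem_antidiagonal] at hq
    ext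
    · rfl
    · simp only
      omega

lemma holds_of {A n : ℕ} (h2 : 2 ∣ n) (hn : 2 < n) (h : Pool.Agent.R460.GS.WinL A n) : Holds A n := by
  have hn0 : n ≠ 0 := by omega
  have hnr : (0 : ℝ) < n := by exact_mod_cast Nat.pos_of_ne_zero hn0
  have hl : 1 ≤ Real.log n := by
    rw [Real.le_log_iff_exp_le hnr]
    have h3 : (3 : ℝ) ≤ n := by exact_mod_cast hn
    linarith [Real.exp_one_lt_d9]
  have hl0 : 0 < Real.log n := by linarith
  have ht : (0 : ℝ) < n.totient := by exact_mod_cast Nat.totient_pos.2 (Nat.pos_of_ne_zero hn0)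
  obtain ⟨s1, _⟩ := Pool.Agent.TH894.SM.sing_tot n hn0 h2
  have hC := Pool.Agent.W93.GB.C2_half
  have hs : 1 / 2 * ((n : ℝ) / n.totient) ≤ Pool.Agent.H560R3.GB.sing n := by
    refine le_trans ?_ s1
    gcongr
  have key : ∀ y₁ y₂ : ℕ, y₁ < y₂ → y₂ ≤ n → (n : ℝ) / Real.log n ^ A ≤ (y₂ : ℝ) - y₁ →
      1 / 40 * (((y₂ : ℝ) - y₁) * n / (n.totient * Real.log n ^ 2)) ≤
      (((Ioc y₁ y₂).filter (fun p => p.Prime ∧ (n - p).Prime)).card : ℝ) := by
    intro y₁ y₂ h12 hy2 hlen
    refine le_trans ?_ (h y₁ y₂ h12 hy2 hlen)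
    have hpos : (0 : ℝ) ≤ (y₂ : ℝ) - y₁ := by
      have : (y₁ : ℝ) < y₂ := by exact_mod_cast h12
      linarith
    calc 1 / 40 * (((y₂ : ℝ) - y₁) * n / (n.totient * Real.log n ^ 2)) =
          1 / 20 * (1 / 2 * ((n : ℝ) / n.totient) * ((y₂ : ℝ) - y₁) / Real.log n ^ 2) := by
          field_simp
          ring
      _ ≤ 1 / 20 * (Pool.Agent.H560R3.GB.sing n * ((y₂ : ℝ) - y₁) / Real.log n ^ 2) := by gcongr
  refine ⟨?_, key⟩
  have h3 := key 0 n (by omega) le_rfl (by
    rw [Nat.cast_zero, sub_zero]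
    exact div_le_self hnr.le (one_le_pow₀ hl))
  rw [card_eq]
  refine le_trans (le_of_eq ?_) h3
  rw [Nat.cast_zero, sub_zero, sq (n : ℝ)]

open Classical in
lemma families (ρ : ℝ) (hρ : 0 < ρ) (A T C h : ℕ) :
    ∃ x₀ : ℕ, ∀ x : ℕ, x₀ ≤ x → ∀ q : ℕ, 1 ≤ q → (q : ℝ) ≤ (x : ℝ) ^ (7 / 10 - ρ) → ∀ a : ℕ,
      (Nat.gcd a q : ℝ) ≤ Real.log x ^ T → ∀ (ι : Type) [Fintype ι] (n : ι → ℕ), (∀ i, n i ≤ x ∧ n i ≡ a [MOD q]) →
        (energy h (fun i => (n i : ℤ)) : ℝ) * x ≤ Real.log x ^ C * q * (Fintype.card ι : ℝ) ^ (2 * h) →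
        (((univ : Finset ι).filter (fun i => Exceptional A (n i))).card : ℝ) ≤ Fintype.card ι / Real.log x ^ A := by
  obtain ⟨N₀, h0⟩ := Pool.Agent.H96.EM.fam_main Pool.Agent.R460.GS.errStm_all Pool.Agent.R453.GS.wtb_all
    Pool.Agent.R453.GS.wtd_all ρ hρ A T C (h + 1) (by omega)
  refine ⟨N₀, fun x hx q hq1 hq a ha ι _ n hn hE => ?_⟩
  refine h0 x hx q hq1 hq a ha ι n hn ?_ _ ?_
  · have h5 : (Pool.Agent.TH935.GF.En (h + 1) (fun i => (n i : ℤ)) : ℝ) ≤
        (Fintype.card ι : ℝ) ^ 2 * Pool.Agent.TH935.GF.En h (fun i => (n i : ℤ)) := by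
      exact_mod_cast Pool.Agent.H96.PR.En_succ h (fun i => (n i : ℤ))
    have h4 : energy h (fun i => (n i : ℤ)) = Pool.Agent.TH935.GF.En h (fun i => (n i : ℤ)) := rfl
    rw [h4] at hE
    calc (Pool.Agent.TH935.GF.En (h + 1) (fun i => (n i : ℤ)) : ℝ) * x ≤
          (Fintype.card ι : ℝ) ^ 2 * Pool.Agent.TH935.GF.En h (fun i => (n i : ℤ)) * x := by gcongr
      _ = (Fintype.card ι : ℝ) ^ 2 * (Pool.Agent.TH935.GF.En h (fun i => (n i : ℤ)) * x) := by ring
      _ ≤ (Fintype.card ι : ℝ) ^ 2 * (Real.log x ^ C * q * (Fintype.card ι : ℝ) ^ (2 * h)) := by gcongr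
      _ = _ := by rw [mul_add, pow_add]; ring
  · intro i hi
    obtain ⟨_, h1, h2, h3⟩ := mem_filter.1 hi
    exact ⟨by omega, h2, fun hw => h3 (holds_of h2 h1 hw)⟩

open Classical in
lemma polynomials (ρ : ℝ) (hρ : 0 < ρ) (A T C : ℕ) (f : Polynomial ℤ) (hf : 1 ≤ f.natDegree) :
    ∃ x₀ : ℕ, ∀ x : ℕ, x₀ ≤ x → ∀ q : ℕ, 1 ≤ q → (q : ℝ) ≤ (x : ℝ) ^ (7 / 10 - ρ) → ∀ a : ℕ,
      (Nat.gcd a q : ℝ) ≤ Real.log x ^ T → ∀ (X : ℕ) (D : Finset ℕ), D ⊆ Icc 1 X → (X : ℝ) ≤ Real.log x ^ C * D.card →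
        (x : ℝ) ≤ Real.log x ^ C * (q * (X : ℝ) ^ f.natDegree) →
        (∀ m ∈ D, 0 ≤ a + q * f.eval (m : ℤ) ∧ a + q * f.eval (m : ℤ) ≤ x) →
        ((D.filter (fun m : ℕ => Exceptional A (a + q * f.eval (m : ℤ)).toNat)).card : ℝ) ≤ D.card / Real.log x ^ A := by
  obtain ⟨p, c, hc, hp⟩ := Pool.Agent.TH823.Fam.energy_poly' f hf
  obtain ⟨N₁, h1⟩ := families ρ hρ A T (2 * p * C + 1 + C) p
  obtain ⟨N₂, h2⟩ := Pool.Agent.H373R2.T7.ev_L' (c + 1)
  refine ⟨N₁ + N₂ + 2, fun x hx q hq1 hq a ha X D hD hDc hX hv => ?_⟩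
  have hLc := h2 x (by omega)
  have h3 := h1 x (by omega) q hq1 hq a ha {m // m ∈ D} (fun m => (a + q * f.eval ((m : ℕ) : ℤ)).toNat) ?_ ?_
  · rw [Fintype.card_coe] at h3
    refine le_trans ?_ h3
    rw [Nat.cast_le]
    apply card_le_card_of_surjOn (fun m : {m // m ∈ D} => (m : ℕ))
    intro m hm
    rw [mem_coe, mem_filter] at hm
    refine ⟨⟨m, hm.1⟩, ?_, rfl⟩
    rw [mem_coe, mem_filter]
    exact ⟨mem_univ _, hm.2⟩
  · intro m
    have h4 := hv m m.2
    constructor
    · omega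
    · rw [← Int.natCast_modEq_iff, Int.toNat_of_nonneg h4.1]
      exact (Int.modEq_iff_dvd.2 ⟨-(f.eval ((m : ℕ) : ℤ)), by ring⟩)
  · obtain ⟨L, hLd⟩ : ∃ L, L = Real.log (x : ℝ) := ⟨_, rfl⟩
    rw [← hLd] at hLc hDc hX ⊢
    have hL1 : 1 ≤ L := by linarith
    have hL0 : 0 < L := by linarith
    have hx0 : (0 : ℝ) < x := by exact_mod_cast (by omega : 0 < x)
    have hX1 : 1 ≤ X := by
      by_contra h4
      have h5 : X = 0 := by omega
      rw [h5, Nat.cast_zero, zero_pow (by omega), mul_zero, mul_zero] at hX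
      linarith
    obtain ⟨dd, hdd⟩ : ∃ dd : ℝ, dd = D.card := ⟨_, rfl⟩
    have hdd0 : 0 ≤ dd := by rw [hdd]; positivity
    rw [Fintype.card_coe, ← hdd]
    rw [← hdd] at hDc
    have e1 : energy p (fun m : {m // m ∈ D} => (((a + q * f.eval ((m : ℕ) : ℤ)).toNat : ℕ) : ℤ)) ≤
        Pool.Agent.H373R2.T7.energy p X (fun m => f.eval (m : ℤ)) := by
      refine le_trans ?_ (Pool.Agent.H96.PR.energy_sub p X (fun m => f.eval (m : ℤ)) D hD)
      have e2 : ∀ m : {m // m ∈ D}, (((a + q * f.eval ((m : ℕ) : ℤ)).toNat : ℕ) : ℤ) = a + q * f.eval ((m : ℕ) : ℤ) :=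
        fun m => Int.toNat_of_nonneg (hv m m.2).1
      have e3 : energy p (fun m : {m // m ∈ D} => (((a + q * f.eval ((m : ℕ) : ℤ)).toNat : ℕ) : ℤ)) =
        Pool.Agent.TH935.GF.En p (fun m : {m // m ∈ D} => (((a + q * f.eval ((m : ℕ) : ℤ)).toNat : ℕ) : ℤ)) := rfl
      rw [e3, Pool.Agent.H96.PR.En_eq, Pool.Agent.H96.PR.En_eq]
      unfold Pool.Agent.H96.PR.Eg
      apply card_le_card
      intro y hy
      rw [mem_filter] at hy ⊢
      refine ⟨mem_univ _, ?_⟩
      have e4 : Pool.Agent.H96.PR.mu (fun m : {m // m ∈ D} => (((a + q * f.eval ((m : ℕ) : ℤ)).toNat : ℕ) : ℤ)) y =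
          q * Pool.Agent.H96.PR.mu (fun m : {m // m ∈ D} => f.eval ((m : ℕ) : ℤ)) y := by
        unfold Pool.Agent.H96.PR.mu
        simp only [e2]
        rw [sum_add_distrib, sum_add_distrib, ← mul_sum, ← mul_sum]
        simp only [sum_const]
        ring
      rw [e4] at hy
      have hq0 : (q : ℤ) ≠ 0 := by exact_mod_cast (by omega : q ≠ 0)
      exact (mul_eq_zero.1 hy.2).resolve_left hq0
    have e1r : (energy p (fun m : {m // m ∈ D} => (((a + q * f.eval ((m : ℕ) : ℤ)).toNat : ℕ) : ℤ)) : ℝ) ≤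
        Pool.Agent.H373R2.T7.energy p X (fun m => f.eval (m : ℤ)) := by exact_mod_cast e1
    have h7 := hp X hX1 0
    simp only [zero_add] at h7
    have hXr : (0 : ℝ) ≤ X := Nat.cast_nonneg _
    calc (energy p (fun m : {m // m ∈ D} => (((a + q * f.eval ((m : ℕ) : ℤ)).toNat : ℕ) : ℤ)) : ℝ) * x ≤
          Pool.Agent.H373R2.T7.energy p X (fun m => f.eval (m : ℤ)) * (L ^ C * (q * (X : ℝ) ^ f.natDegree)) := by gcongr
      _ = L ^ C * q * (Pool.Agent.H373R2.T7.energy p X (fun m => f.eval (m : ℤ)) * (X : ℝ) ^ f.natDegree) := by ring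
      _ ≤ L ^ C * q * (c * (X : ℝ) ^ (2 * p)) := by gcongr
      _ ≤ L ^ C * q * (c * (L ^ C * dd) ^ (2 * p)) := by
          have := hc.le
          gcongr
      _ = L ^ C * q * (c * L ^ (2 * p * C) * dd ^ (2 * p)) := by
          rw [mul_pow, ← pow_mul, mul_comm C]
          ring
      _ ≤ L ^ C * q * (L * L ^ (2 * p * C) * dd ^ (2 * p)) := by
          gcongr
          linarith
      _ = L ^ (2 * p * C + 1 + C) * q * dd ^ (2 * p) := by
          rw [pow_add, pow_add, pow_one]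
          ring

open Classical in
/-- Let `ρ > 0` and let `A`, `T`, `C` be natural numbers.

(1) Let `h` be a natural number. For all sufficiently large `x`: for EVERY modulus `1 ≤ q ≤ x ^ (7 / 10 - ρ)`, every `a`
with `gcd(a, q) ≤ (log x) ^ T` and ANY finite family of integers `n i` with `0 ≤ n i ≤ x`, `n i ≡ a (mod q)` and
`energy h n ≤ (log x) ^ C |ι| ^ (2 h) q / x` (up to the logarithms the smallest possible value), all but at most
`|ι| / (log x) ^ A` of the even members `n > 2` of the family satisfy `Holds A n`: `r₂(n) ≥ (1 / 40) n² / (φ(n) log² n)`,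
and the same lower bound holds in all windows of length at least `n / (log n) ^ A`.

(2) Let `f` be a nonconstant polynomial with integer coefficients. For all sufficiently large `x`: for EVERY modulus
`1 ≤ q ≤ x ^ (7 / 10 - ρ)`, every `a` with `gcd(a, q) ≤ (log x) ^ T`, every `X` with
`X ^ deg f ≥ x / (q (log x) ^ C)` and every set `D ⊆ {1, ..., X}` with at least `X / (log x) ^ C` elements (for instance: the
primes) such that `0 ≤ a + q f(m) ≤ x` for all `m ∈ D`, the even number `n = a + q f(m)` satisfies `Holds A n` or is `≤ 2`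
or odd, for all `m ∈ D` with at most `|D| / (log x) ^ A` exceptions. -/
theorem result (ρ : ℝ) (hρ : 0 < ρ) (A T C : ℕ) :
    (∀ h : ℕ, ∃ x₀ : ℕ, ∀ x : ℕ, x₀ ≤ x → ∀ q : ℕ, 1 ≤ q → (q : ℝ) ≤ (x : ℝ) ^ (7 / 10 - ρ) → ∀ a : ℕ,
      (Nat.gcd a q : ℝ) ≤ Real.log x ^ T → ∀ (ι : Type) [Fintype ι] (n : ι → ℕ), (∀ i, n i ≤ x ∧ n i ≡ a [MOD q]) →
        (energy h (fun i => (n i : ℤ)) : ℝ) * x ≤ Real.log x ^ C * q * (Fintype.card ι : ℝ) ^ (2 * h) →
        (((univ : Finset ι).filter (fun i => Exceptional A (n i))).card : ℝ) ≤ Fintype.card ι / Real.log x ^ A) ∧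
    (∀ f : Polynomial ℤ, 1 ≤ f.natDegree →
      ∃ x₀ : ℕ, ∀ x : ℕ, x₀ ≤ x → ∀ q : ℕ, 1 ≤ q → (q : ℝ) ≤ (x : ℝ) ^ (7 / 10 - ρ) → ∀ a : ℕ,
      (Nat.gcd a q : ℝ) ≤ Real.log x ^ T → ∀ (X : ℕ) (D : Finset ℕ), D ⊆ Icc 1 X → (X : ℝ) ≤ Real.log x ^ C * D.card →
        (x : ℝ) ≤ Real.log x ^ C * (q * (X : ℝ) ^ f.natDegree) →
        (∀ m ∈ D, 0 ≤ a + q * f.eval (m : ℤ) ∧ a + q * f.eval (m : ℤ) ≤ x) →
        ((D.filter (fun m : ℕ => Exceptional A (a + q * f.eval (m : ℤ)).toNat)).card : ℝ) ≤ D.card / Real.log x ^ A) :=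
  ⟨fun h => families ρ hρ A T C h, fun f hf => polynomials ρ hρ A T C f hf⟩

end Pool.Agent.Results.MP_629a14_nt.FamiliesInEveryClass
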