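import Pool.Agent.H56.FP.Energy
import Pool.Graph.R_pool_sql_team_seeded_2aa45f1a.Results.MP_629a14_nt.EvensNearRealSequences

/-!
# Goldbach representation numbers of all even integers near the dilated fractional parts of real polynomials, and
# near the values of integer polynomials modulo an arbitrary integer

The integers considered are all even integers at a distance of at most `log ^ A N` from the real numbers
`β + y {g(m)}`, `m ≤ x`, where `g` is an arbitrary real polynomial, `{t}` is the fractional part of `t`, and `y` is of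
the order `N`. They are spread over the whole interval `[β, β + y]` in a random-like way, and they are as few as
`N ^ (1 / d)` (up to logarithms; `d` is the degree of `g`). For `g = f / q` and `y = q` they are the residues modulo `q`
of the values of the integer polynomial `f`.

Method. The leading coefficient of `g` is supposed to have a rational approximation with a denominator of the order
`N`, up to logarithms. The inverse theorem for Weyl sums (with polynomial bounds, `Pool.Agent.H373R2.NB.IW_all` of the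
library) shows that few of the exponential sums `∑ e(j g(m))`, `j ≤ N`, are large, so that the additive energy of
some order of the numbers `y {g(m)}` is minimal up to a power of `log N` (modules `Pool.Agent.H56.FP`). The conclusion is
then drawn with the theorem of the library on real families of nearly minimal energy.

From Mathlib: `Int.fract t`: the fractional part of `t`; `round t`: the nearest integer; `Int.gcd`;
`g.natDegree`, `g.coeff d`, `g.eval m`: the degree, the coefficients and the values of the polynomial `g`;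
`n.primeFactors`: the set of the prime divisors of `n`; `Nat.totient`: Euler's function.
-/

set_option autoImplicit false

namespace Pool.Agent.Results.MP_629a14_nt.FractionalPartsOfPolynomials

open Finset

/-- The twin prime constant `C₂ = ∏_{p > 2} (1 - 1 / (p - 1) ^ 2)`: the infimum of the decreasing partial products
over the primes `3 ≤ p ≤ z`. -/
noncomputable def C₂ : ℝ := ⨅ z : ℕ, ∏ p ∈ (Icc 3 z).filter Nat.Prime, (1 - 1 / ((p : ℝ) - 1) ^ 2)

/-- The singular series `2 C₂ ∏_{p ∣ n, p > 2} (p - 1) / (p - 2)`. -/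
noncomputable def sing (n : ℕ) : ℝ :=
  2 * C₂ * ∏ p ∈ n.primeFactors.filter (fun p => 2 < p), ((p : ℝ) - 1) / ((p : ℝ) - 2)

/-- The number of the primes `p` with `y₁ < p ≤ y₂` such that `n - p` is a prime. -/
def reps (n y₁ y₂ : ℕ) : ℕ := ((Ioc y₁ y₂).filter (fun p => p.Prime ∧ (n - p).Prime)).card

/-- The even integer `n` is good: (1) in every interval `(y₁, y₂]` with `y₂ ≤ n` of length at least `n / log ^ V n`
the number of the primes `p` such that `n - p` is a prime agrees with the prediction of Hardy and Littlewood up to a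
relative error of at most `ε`; (2) the number `r₂(n)` of the representations of `n` as a sum of two primes lies
between `(1 - ε) C₂` and `1 + ε` times `n² / (φ(n) log² n)`. -/
def Good (ε : ℝ) (V n : ℕ) : Prop :=
  (∀ y₁ y₂ : ℕ, y₁ < y₂ → y₂ ≤ n → (n : ℝ) / Real.log n ^ V ≤ (y₂ : ℝ) - y₁ →
    |(reps n y₁ y₂ : ℝ) - sing n * ((y₂ : ℝ) - y₁) / Real.log n ^ 2| ≤
      ε * (sing n * ((y₂ : ℝ) - y₁) / Real.log n ^ 2)) ∧
  (1 - ε) * C₂ * ((n : ℝ) ^ 2 / (n.totient * Real.log n ^ 2)) ≤ reps n 0 n ∧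
  (reps n 0 n : ℝ) ≤ (1 + ε) * ((n : ℝ) ^ 2 / (n.totient * Real.log n ^ 2))

open Classical in
/-- The bound at scale `N` for the windows around the `r m`, `m ≤ x`: for all `m ≤ x` with at most `x / log ^ U N`
exceptions all positive even integers `n` with `|n - r m| ≤ log ^ A N` are good. -/
def Holds (ε : ℝ) (A V U N x : ℕ) (r : ℕ → ℝ) : Prop :=
  (((Icc 1 x).filter (fun m => ∃ n : ℕ, 0 < n ∧ Even n ∧ |(n : ℝ) - r m| ≤ Real.log N ^ A ∧ ¬ Good ε V n)).card : ℝ) ≤
    x / Real.log N ^ U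

/-- the general theorem -/
theorem main (d : ℕ) (hd : 1 ≤ d) (A B C V U : ℕ) (ε : ℝ) (hε : 0 < ε) :
    ∃ N₀ : ℕ, ∀ N : ℕ, N₀ ≤ N → ∀ g : Polynomial ℝ, g.natDegree ≤ d → ∀ (q : ℕ) (a : ℤ), 1 ≤ q → IsCoprime a (q : ℤ) →
      |g.coeff d - a / q| ≤ 1 / (q : ℝ) ^ 2 → (N : ℝ) ≤ Real.log N ^ C * q → (q : ℝ) ≤ Real.log N ^ C * N →
      ∀ (x : ℕ) (β y : ℝ), (N : ℝ) ≤ Real.log N ^ C * (x : ℝ) ^ d → |β| ≤ B * N →
      (N : ℝ) ≤ Real.log N ^ C * y → y ≤ B * N →
      Holds ε A V U N x (fun m => β + y * Int.fract (g.eval (m : ℝ))) := by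
  obtain ⟨p, C₁, N₁, hp, h1⟩ := Pool.Agent.H56.FP.energy d hd B C
  obtain ⟨B₂, C₂', N₂, h2⟩ := Pool.Agent.Q56.TF.near_gen p A (2 * B) C₁
  obtain ⟨N₃, h3⟩ := Pool.Agent.Results.MP_629a14_nt.EvensNearRealSequences.holds_of A B₂ V U p C₂' hp ε hε
  refine ⟨N₁ + N₂ + N₃ + 1, fun N hN g hg q a hq hcop hα hNq hqN x β y hNx hβ hNy hyB => ?_⟩
  have hN0 : (0 : ℝ) < N := by exact_mod_cast (by omega : 0 < N)
  rcases Nat.eq_zero_or_pos x with hx | hx
  · exfalso
    subst hx
    rw [Nat.cast_zero, zero_pow (by omega), mul_zero] at hNx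
    linarith
  have hE := h1 N (by omega) g hg q x a β y hq hx hcop hα hNq hqN hNx hNy hyB
  have hB0 : (0 : ℝ) ≤ B := Nat.cast_nonneg B
  have hr : ∀ m ∈ Icc 1 x, |β + y * Int.fract (g.eval (m : ℝ))| ≤ ((2 * B : ℕ) : ℝ) * N := by
    intro m _
    have h4 : 0 ≤ Int.fract (g.eval (m : ℝ)) := Int.fract_nonneg _
    have h5 : Int.fract (g.eval (m : ℝ)) ≤ 1 := (Int.fract_lt_one _).le
    have h6 : |y| ≤ B * N := by
      rw [abs_le]
      refine ⟨?_, hyB⟩
      have : 0 < y := by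
        by_contra hcon
        push Not at hcon
        have h7 : (0 : ℝ) ≤ Real.log N ^ C := by
          apply pow_nonneg
          apply Real.log_nonneg
          exact_mod_cast (by omega : 1 ≤ N)
        have : Real.log N ^ C * y ≤ 0 := mul_nonpos_of_nonneg_of_nonpos h7 hcon
        linarith
      have : (0 : ℝ) ≤ B * N := by positivity
      linarith
    calc |β + y * Int.fract (g.eval (m : ℝ))| ≤ |β| + |y * Int.fract (g.eval (m : ℝ))| := abs_add_le _ _
      _ = |β| + |y| * Int.fract (g.eval (m : ℝ)) := by rw [abs_mul, abs_of_nonneg h4]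
      _ ≤ B * N + B * N := by
          apply add_le_add hβ
          calc |y| * Int.fract (g.eval (m : ℝ)) ≤ (B * N) * 1 := mul_le_mul h6 h5 h4 (by positivity)
            _ = B * N := mul_one _
      _ = _ := by push_cast; ring
  exact h3 N (by omega) x _ (h2 N (by omega) x _ hr hE)

/-- leading coefficients which are not too well approximable -/
theorem main_alpha (d : ℕ) (hd : 1 ≤ d) (A B C V U : ℕ) (ε : ℝ) (hε : 0 < ε) (α : ℝ)
    (hα : ∃ k₀ : ℕ, ∀ k : ℕ, k₀ ≤ k → 1 ≤ Real.log k ^ C * (k * |k * α - round (k * α)|)) :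
    ∃ N₀ : ℕ, ∀ N : ℕ, N₀ ≤ N → ∀ g : Polynomial ℝ, g.natDegree ≤ d → g.coeff d = α →
      ∀ (x : ℕ) (β y : ℝ), (N : ℝ) ≤ Real.log N ^ C * (x : ℝ) ^ d → |β| ≤ B * N →
      (N : ℝ) ≤ Real.log N ^ C * y → y ≤ B * N →
      Holds ε A V U N x (fun m => β + y * Int.fract (g.eval (m : ℝ))) := by
  obtain ⟨N₁, h1⟩ := main d hd A B (C + 1) V U ε hε
  obtain ⟨k₀, hk₀⟩ := hα
  -- `α` is irrational
  have hirr : ∀ k : ℕ, 1 ≤ k → 0 < |k * α - round (k * α)| := by
    intro k hk
    by_contra hcon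
    push Not at hcon
    have h0 : (k : ℝ) * α = round (k * α) := by
      have := abs_nonneg ((k : ℝ) * α - round (k * α))
      have h2 : |(k : ℝ) * α - round (k * α)| = 0 := le_antisymm hcon this
      linarith [abs_eq_zero.1 h2]
    have h2 := hk₀ (k * (k₀ + 1)) (by nlinarith)
    have h3 : ((k * (k₀ + 1) : ℕ) : ℝ) * α = ((round (k * α) * (k₀ + 1) : ℤ) : ℝ) := by
      push_cast
      rw [← h0]; ring
    rw [h3, round_intCast, sub_self, abs_zero, mul_zero, mul_zero] at h2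
    linarith
  -- a lower bound for the small multiples
  obtain ⟨η, hη, hηk⟩ : ∃ η : ℝ, 0 < η ∧ ∀ k : ℕ, 1 ≤ k → k < k₀ → η ≤ |k * α - round (k * α)| := by
    have : ∀ K : ℕ, ∃ η : ℝ, 0 < η ∧ ∀ k : ℕ, 1 ≤ k → k < K → η ≤ |k * α - round (k * α)| := by
      intro K
      induction K with
      | zero => exact ⟨1, one_pos, fun k _ h => absurd h (by omega)⟩
      | succ K ih =>
        obtain ⟨η, hη, h⟩ := ih
        rcases Nat.eq_zero_or_pos K with hK | hK
        · exact ⟨1, one_pos, fun k _ h => absurd h (by omega)⟩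
        refine ⟨min η |K * α - round (K * α)|, lt_min hη (hirr K hK), fun k hk1 hk2 => ?_⟩
        rcases Nat.lt_or_ge k K with h3 | h3
        · exact (min_le_left _ _).trans (h k hk1 h3)
        · have : k = K := by omega
          subst this
          exact min_le_right _ _
    exact this k₀
  have hlog : Filter.Tendsto (fun N : ℕ => Real.log N) Filter.atTop Filter.atTop :=
    Real.tendsto_log_atTop.comp tendsto_natCast_atTop_atTop
  obtain ⟨N₂, h2⟩ := Filter.eventually_atTop.1 (hlog.eventually_ge_atTop 1)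
  obtain ⟨N₃, h3⟩ := exists_nat_gt (1 / η)
  refine ⟨N₁ + N₂ + N₃ + 2, fun N hN g hg hgα x β y hNx hβ hNy hyB => ?_⟩
  have hl1 : 1 ≤ Real.log N := h2 N (by omega)
  have hN0 : (0 : ℝ) < N := by exact_mod_cast (by omega : 0 < N)
  -- Dirichlet
  obtain ⟨a₀, q₀, hq₀, hqN, hqa⟩ := Real.exists_int_int_abs_mul_sub_le α (n := N) (by omega)
  obtain ⟨q₁, rfl⟩ : ∃ q₁ : ℕ, q₀ = q₁ := ⟨q₀.toNat, (Int.toNat_of_nonneg hq₀.le).symm⟩
  have hq₁ : 1 ≤ q₁ := by exact_mod_cast hq₀
  have hqN' : q₁ ≤ N := by exact_mod_cast hqN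
  have hg0 : 0 < Int.gcd a₀ q₁ := Int.gcd_pos_of_ne_zero_right _ (by exact_mod_cast (by omega : q₁ ≠ 0))
  obtain ⟨t, ht⟩ : ∃ t : ℕ, t = Int.gcd a₀ q₁ := ⟨_, rfl⟩
  rw [← ht] at hg0
  have htq : (t : ℤ) ∣ (q₁ : ℤ) := by rw [ht]; exact Int.gcd_dvd_right _ _
  have hta : (t : ℤ) ∣ a₀ := by rw [ht]; exact Int.gcd_dvd_left _ _
  obtain ⟨q, hq⟩ : ∃ q : ℕ, q₁ = t * q := Int.natCast_dvd_natCast.1 htq
  obtain ⟨a, ha⟩ := hta
  have hq1 : 1 ≤ q := by
    rcases Nat.eq_zero_or_pos q with h | h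
    · rw [h, mul_zero] at hq; omega
    · exact h
  have hcop : IsCoprime a (q : ℤ) := by
    rw [Int.isCoprime_iff_gcd_eq_one]
    have e1 : t * Int.gcd a q = t := by
      conv_rhs => rw [ht, ha, hq]
      push_cast
      rw [Int.gcd_mul_left]
      simp
    exact Nat.eq_of_mul_eq_mul_left hg0 (by rw [e1, mul_one])
  have ht1 : (1 : ℝ) ≤ t := by exact_mod_cast hg0
  have hq0 : (0 : ℝ) < q := by exact_mod_cast hq1
  have hqa2 : |(q : ℝ) * α - a| ≤ 1 / (N + 1) := by
    have e1 : ((q₁ : ℤ) : ℝ) * α - a₀ = t * (q * α - a) := by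
      rw [hq, ha]; push_cast; ring
    rw [e1, abs_mul, abs_of_nonneg (by linarith)] at hqa
    have h4 := abs_nonneg ((q : ℝ) * α - a)
    calc |(q : ℝ) * α - a| = 1 * |(q : ℝ) * α - a| := (one_mul _).symm
      _ ≤ t * |(q : ℝ) * α - a| := mul_le_mul_of_nonneg_right ht1 h4
      _ ≤ _ := hqa
  have hqleN : (q : ℝ) ≤ N := by
    have : q ≤ q₁ := by rw [hq]; nlinarith
    exact_mod_cast this.trans hqN'
  have hround : |(q : ℝ) * α - round ((q : ℝ) * α)| ≤ 1 / (N + 1) := (round_le _ a).trans hqa2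
  have hqk : k₀ ≤ q := by
    by_contra hcon
    push Not at hcon
    have h4 := (hηk q hq1 hcon).trans hround
    have h5 : 1 / η < N := h3.trans_le (by exact_mod_cast (by omega : N₃ ≤ N))
    rw [le_div_iff₀ (by positivity)] at h4
    rw [div_lt_iff₀ hη] at h5
    nlinarith
  have h4 := hk₀ q hqk
  have hlq : Real.log q ≤ Real.log N := Real.log_le_log hq0 hqleN
  have hlq0 : 0 ≤ Real.log q := Real.log_nonneg (by exact_mod_cast hq1)
  have hmono : Real.log N ^ C ≤ Real.log N ^ (C + 1) := pow_le_pow_right₀ hl1 (by omega)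
  have hNq : (N : ℝ) ≤ Real.log N ^ C * q := by
    have h5 : Real.log q ^ C * (q * |q * α - round (q * α)|) ≤ Real.log N ^ C * (q * (1 / (N + 1))) := by
      apply mul_le_mul (pow_le_pow_left₀ hlq0 hlq C) _ (by positivity) (by positivity)
      exact mul_le_mul_of_nonneg_left hround hq0.le
    have h6 := h4.trans h5
    have h7 : Real.log N ^ C * (q * (1 / ((N : ℝ) + 1))) = Real.log N ^ C * q / (N + 1) := by ring
    rw [h7, le_div_iff₀ (by positivity)] at h6
    linarith
  refine h1 N (by omega) g hg q a hq1 hcop ?_ (hNq.trans (mul_le_mul_of_nonneg_right hmono hq0.le)) ?_ x β y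
    (hNx.trans (mul_le_mul_of_nonneg_right hmono (by positivity))) hβ ?_ hyB
  · rw [hgα]
    have e1 : α - a / q = (q * α - a) / q := by field_simp
    rw [e1, abs_div, abs_of_pos hq0, div_le_div_iff₀ hq0 (by positivity)]
    have h5 : |(q : ℝ) * α - a| * q ≤ 1 := by
      calc |(q : ℝ) * α - a| * q ≤ 1 / (N + 1) * q := mul_le_mul_of_nonneg_right hqa2 hq0.le
        _ ≤ 1 / (N + 1) * (N + 1) := by
            apply mul_le_mul_of_nonneg_left _ (by positivity)
            linarith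
        _ = 1 := by field_simp
    calc |(q : ℝ) * α - a| * (q : ℝ) ^ 2 = (|(q : ℝ) * α - a| * q) * q := by ring
      _ ≤ 1 * q := mul_le_mul_of_nonneg_right h5 hq0.le
  · calc (q : ℝ) ≤ N := hqleN
      _ = 1 * N := (one_mul _).symm
      _ ≤ _ := mul_le_mul_of_nonneg_right (one_le_pow₀ hl1) hN0.le
  · have hy0 : 0 ≤ y := by
      by_contra hcon
      push Not at hcon
      have h7 : (0 : ℝ) < Real.log N ^ C := by positivity
      have : Real.log N ^ C * y < 0 := mul_neg_of_pos_of_neg h7 hcon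
      linarith
    exact hNy.trans (mul_le_mul_of_nonneg_right hmono hy0)

/-- values of integer polynomials modulo arbitrary integers -/
theorem main_mod (d : ℕ) (hd : 1 ≤ d) (A B C V U : ℕ) (ε : ℝ) (hε : 0 < ε) :
    ∃ q₀ : ℕ, ∀ q : ℕ, q₀ ≤ q → ∀ f : Polynomial ℤ, f.natDegree ≤ d → (Int.gcd (f.coeff d) q : ℝ) ≤ Real.log q ^ C →
      ∀ (x : ℕ) (κ : ℕ) (c : ℤ), (q : ℝ) ≤ Real.log q ^ C * (x : ℝ) ^ d → 1 ≤ κ → κ ≤ B → |c| ≤ (B : ℤ) * q →
      Holds ε A V U q x (fun m => ((c + κ * (f.eval (m : ℤ) % q) : ℤ) : ℝ)) := by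
  obtain ⟨N₁, h1⟩ := main d hd A B (C + 1) V U ε hε
  have hlog : Filter.Tendsto (fun N : ℕ => Real.log N) Filter.atTop Filter.atTop :=
    Real.tendsto_log_atTop.comp tendsto_natCast_atTop_atTop
  obtain ⟨N₂, h2⟩ := Filter.eventually_atTop.1 (hlog.eventually_ge_atTop 1)
  refine ⟨N₁ + N₂ + 2, fun Q hQ f hf hgcd x κ c hQx hκ hκB hc => ?_⟩
  have hl1 : 1 ≤ Real.log Q := h2 Q (by omega)
  have hQ0 : (0 : ℝ) < Q := by exact_mod_cast (by omega : 0 < Q)
  have hmono : Real.log Q ^ C ≤ Real.log Q ^ (C + 1) := pow_le_pow_right₀ hl1 (by omega)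
  obtain ⟨t, ht⟩ : ∃ t : ℕ, t = Int.gcd (f.coeff d) Q := ⟨_, rfl⟩
  have hg0 : 0 < t := by rw [ht]; exact Int.gcd_pos_of_ne_zero_right _ (by exact_mod_cast (by omega : Q ≠ 0))
  rw [← ht] at hgcd
  have htq : (t : ℤ) ∣ (Q : ℤ) := by rw [ht]; exact Int.gcd_dvd_right _ _
  have hta : (t : ℤ) ∣ f.coeff d := by rw [ht]; exact Int.gcd_dvd_left _ _
  obtain ⟨q, hq⟩ : ∃ q : ℕ, Q = t * q := Int.natCast_dvd_natCast.1 htq
  obtain ⟨a, ha⟩ := hta
  have hq1 : 1 ≤ q := by
    rcases Nat.eq_zero_or_pos q with h | h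
    · rw [h, mul_zero] at hq; omega
    · exact h
  have hcop : IsCoprime a (q : ℤ) := by
    rw [Int.isCoprime_iff_gcd_eq_one]
    have e1 : t * Int.gcd a q = t := by
      conv_rhs => rw [ht, ha, hq]
      push_cast
      rw [Int.gcd_mul_left]
      simp
    exact Nat.eq_of_mul_eq_mul_left hg0 (by rw [e1, mul_one])
  have ht1 : (1 : ℝ) ≤ t := by exact_mod_cast hg0
  have hq0 : (0 : ℝ) < q := by exact_mod_cast hq1
  have hQr : (Q : ℝ) = t * q := by rw [hq]; push_cast; ring
  obtain ⟨g, hg⟩ : ∃ g : Polynomial ℝ, g = Polynomial.C (1 / (Q : ℝ)) * f.map (Int.castRingHom ℝ) := ⟨_, rfl⟩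
  have hgd : g.natDegree ≤ d := by
    rw [hg]
    exact (Polynomial.natDegree_C_mul_le _ _).trans (Polynomial.natDegree_map_le.trans hf)
  have hgc : g.coeff d = a / q := by
    rw [hg, Polynomial.coeff_C_mul, Polynomial.coeff_map, ha]
    simp only [eq_intCast]
    rw [hQr]
    push_cast
    field_simp
  have hval : ∀ m : ℕ, ((c + κ * (f.eval (m : ℤ) % Q) : ℤ) : ℝ) = c + (κ * Q : ℝ) * Int.fract (g.eval (m : ℝ)) := by
    intro m
    have e1 : g.eval (m : ℝ) = ((f.eval (m : ℤ) : ℤ) : ℝ) / ((Q : ℤ) : ℝ) := by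
      rw [hg, Polynomial.eval_mul, Polynomial.eval_C]
      have : (Polynomial.map (Int.castRingHom ℝ) f).eval (m : ℝ) = ((f.eval (m : ℤ) : ℤ) : ℝ) := by
        have h5 := Polynomial.eval_intCast_map (Int.castRingHom ℝ) f (m : ℤ)
        simp only [Int.cast_natCast, eq_intCast] at h5
        exact h5
      rw [this]
      push_cast
      ring
    rw [e1]
    have e2 : Int.fract (((f.eval (m : ℤ) : ℤ) : ℝ) / ((Q : ℤ) : ℝ)) = ((f.eval (m : ℤ) % Q : ℤ) : ℝ) / ((Q : ℤ) : ℝ) :=
      Int.fract_div_intCast_eq_div_intCast_mod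
    rw [e2]
    push_cast
    field_simp
  have hfun : (fun m : ℕ => ((c + κ * (f.eval (m : ℤ) % Q) : ℤ) : ℝ)) =
      fun m : ℕ => (c : ℝ) + (κ * Q : ℝ) * Int.fract (g.eval (m : ℝ)) := by
    funext m
    exact hval m
  rw [hfun]
  have hκ1 : (1 : ℝ) ≤ κ := by exact_mod_cast hκ
  have hκB' : (κ : ℝ) ≤ B := by exact_mod_cast hκB
  have hqQ : (q : ℝ) ≤ Q := by rw [hQr]; nlinarith
  refine h1 Q (by omega) g hgd q a hq1 hcop ?_ ?_ ?_ x c (κ * Q) (hQx.trans (mul_le_mul_of_nonneg_right hmono (by positivity)))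
    ?_ ?_ (mul_le_mul_of_nonneg_right hκB' hQ0.le)
  · rw [hgc, sub_self, abs_zero]; positivity
  · calc (Q : ℝ) = t * q := hQr
      _ ≤ Real.log Q ^ C * q := mul_le_mul_of_nonneg_right hgcd hq0.le
      _ ≤ _ := mul_le_mul_of_nonneg_right hmono hq0.le
  · calc (q : ℝ) ≤ Q := hqQ
      _ = 1 * Q := (one_mul _).symm
      _ ≤ _ := mul_le_mul_of_nonneg_right (one_le_pow₀ hl1) hQ0.le
  · exact_mod_cast hc
  · calc (Q : ℝ) = 1 * (1 * Q) := by ring
      _ ≤ Real.log Q ^ (C + 1) * (κ * Q) :=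
        mul_le_mul (one_le_pow₀ hl1) (mul_le_mul_of_nonneg_right hκ1 hQ0.le) (by positivity) (by positivity)

/-- Let the degree `d ≥ 1`, `A`, `B`, `C`, `V`, `U` and `ε > 0` be fixed.

* For all large `N`: let `g` be ANY real polynomial of degree at most `d` whose coefficient at `t ^ d` has a rational
  approximation `a / q` with an error of at most `1 / q²` (`a`, `q` coprime) with `N / log ^ C N ≤ q ≤ N log ^ C N`.
  Let `x ^ d ≥ N / log ^ C N`, `N / log ^ C N ≤ y ≤ B N` and `|β| ≤ B N`. Then for all `m ≤ x` with at most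
  `x / log ^ U N` exceptions ALL positive even integers `n` at a distance of at most `log ^ A N` from
  `β + y {g(m)}` are good: in every interval of length at least `n / log ^ V n` the number of the primes `p` for which
  `n - p` is a prime is the one predicted by Hardy and Littlewood up to a relative error of at most `ε`, and `r₂(n)` lies
  between `(1 - ε) C₂` and `1 + ε` times `n² / (φ(n) log² n)`.
* Let `α` be a real number whose multiples satisfy `‖k α‖ ≥ 1 / (k log ^ C k)` for all large `k` (for instance a real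
  quadratic irrationality). For all large `N` the same holds for all real polynomials `g` of degree `d`
  with the leading coefficient `α`.
* For all large integers `q` and all polynomials `f` with integer coefficients of degree at most `d` for which the greatest
  common divisor of `q` and the coefficient at `t ^ d` is at most `log ^ C q`, the same holds with `N = q` for the
  integers `c + κ r(m)`, where `r(m)` is the residue of `f(m)` modulo `q` in `{0, ..., q - 1}`, if
  `x ^ d ≥ q / log ^ C q`, `1 ≤ κ ≤ B` and `|c| ≤ B q`. -/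
theorem result (d : ℕ) (hd : 1 ≤ d) (A B C V U : ℕ) (ε : ℝ) (hε : 0 < ε) :
    (∃ N₀ : ℕ, ∀ N : ℕ, N₀ ≤ N → ∀ g : Polynomial ℝ, g.natDegree ≤ d → ∀ (q : ℕ) (a : ℤ), 1 ≤ q → IsCoprime a (q : ℤ) →
      |g.coeff d - a / q| ≤ 1 / (q : ℝ) ^ 2 → (N : ℝ) ≤ Real.log N ^ C * q → (q : ℝ) ≤ Real.log N ^ C * N →
      ∀ (x : ℕ) (β y : ℝ), (N : ℝ) ≤ Real.log N ^ C * (x : ℝ) ^ d → |β| ≤ B * N →
      (N : ℝ) ≤ Real.log N ^ C * y → y ≤ B * N →
      Holds ε A V U N x (fun m => β + y * Int.fract (g.eval (m : ℝ)))) ∧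
    (∀ α : ℝ, (∃ k₀ : ℕ, ∀ k : ℕ, k₀ ≤ k → 1 ≤ Real.log k ^ C * (k * |k * α - round (k * α)|)) →
      ∃ N₀ : ℕ, ∀ N : ℕ, N₀ ≤ N → ∀ g : Polynomial ℝ, g.natDegree ≤ d → g.coeff d = α →
      ∀ (x : ℕ) (β y : ℝ), (N : ℝ) ≤ Real.log N ^ C * (x : ℝ) ^ d → |β| ≤ B * N →
      (N : ℝ) ≤ Real.log N ^ C * y → y ≤ B * N →
      Holds ε A V U N x (fun m => β + y * Int.fract (g.eval (m : ℝ)))) ∧
    (∃ q₀ : ℕ, ∀ q : ℕ, q₀ ≤ q → ∀ f : Polynomial ℤ, f.natDegree ≤ d → (Int.gcd (f.coeff d) q : ℝ) ≤ Real.log q ^ C →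
      ∀ (x : ℕ) (κ : ℕ) (c : ℤ), (q : ℝ) ≤ Real.log q ^ C * (x : ℝ) ^ d → 1 ≤ κ → κ ≤ B → |c| ≤ (B : ℤ) * q →
      Holds ε A V U q x (fun m => ((c + κ * (f.eval (m : ℤ) % q) : ℤ) : ℝ))) :=
  ⟨main d hd A B C V U ε hε, fun α hα => main_alpha d hd A B C V U ε hε α hα, main_mod d hd A B C V U ε hε⟩

end Pool.Agent.Results.MP_629a14_nt.FractionalPartsOfPolynomials
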