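import Pool.Agent.H96.PR.G
import Pool.Graph.R_seed8.TH935.GF
import Pool.Graph.R_seed8.TH894.SM0

/-!
# Goldbach representation numbers of all even integers near products of several variables with arbitrary perturbations,
# each of which does not depend on one of the variables

`k ≥ 2` families of integers `a 1, ..., a k` are given, arbitrary except that each of them has an additive energy of
some order which is minimal up to a power of the logarithm (for instance the values of a polynomial at arbitrary dense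
sets of arguments, see the second part of the theorem). Let `f 1, ..., f k` be COMPLETELY ARBITRARY integer valued
functions of `x = (x 1, ..., x k)` such that `f s` does not depend on `x s`. For almost all `x` ALL the even integers
near `a 1 (x 1) ⋯ a k (x k) + f 1 (x) + ... + f k (x)` satisfy the formula of Hardy and Littlewood for the number of
representations as a sum of two primes, in all windows, and so this number has the order of magnitude of the problem.
For `k = 2`: the even integers near `a(x) b(y) + f(x) + g(y)`, with arbitrary `f` and `g`.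

Proof: Hölder's inequality for each of the variables (an inequality of the type of Gowers, Cauchy and Schwarz) removes
the functions `f s` and bounds the exponential sums over the family by sums over products of differences; these
are dominated by trigonometric polynomials with coefficients bounded by divisor functions, and moments of the
divisor function show that the additive energy of some order of the family is minimal up to a power of the
logarithm. Then the theorem of the library on families of integers of this kind (`Pool.Agent.TH935.GF`) is applied.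
-/

set_option autoImplicit false

namespace Pool.Agent.Results.MP_629a14_nt.PerturbedProducts

open Finset

/-- The additive energy of order `h` of a finite family of integers: the number of the solutions of
`v (i 1) + ... + v (i h) = v (j 1) + ... + v (j h)`. -/
noncomputable def energy (h : ℕ) {ι : Type} [Fintype ι] (v : ι → ℤ) : ℕ :=
  Nat.card {q : (Fin h → ι) × (Fin h → ι) // ∑ j, v (q.1 j) = ∑ j, v (q.2 j)}

/-- The twin prime constant `C₂ = ∏_{p > 2} (1 - 1 / (p - 1) ^ 2)`: the infimum of the decreasing partial products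
over the primes `3 ≤ p ≤ z`. -/
noncomputable def C₂ : ℝ := ⨅ z : ℕ, ∏ p ∈ (Icc 3 z).filter Nat.Prime, (1 - 1 / ((p : ℝ) - 1) ^ 2)

/-- The singular series `2 C₂ ∏_{p ∣ n, p > 2} (p - 1) / (p - 2)`. -/
noncomputable def sing (n : ℕ) : ℝ :=
  2 * C₂ * ∏ p ∈ n.primeFactors.filter (fun p => 2 < p), ((p : ℝ) - 1) / ((p : ℝ) - 2)

/-- The number of the primes `p` with `y₁ < p ≤ y₂` such that `n - p` is a prime. -/
def reps (n y₁ y₂ : ℕ) : ℕ := ((Ioc y₁ y₂).filter (fun p => p.Prime ∧ (n - p).Prime)).card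

/-- The even integer `n` is good: (1) in every interval `(y₁, y₂]` with `y₂ ≤ n` of length at least `n / log ^ V n`
the number of the primes `p` such that `n - p` is a prime agrees with the prediction of Hardy and Littlewood up to a
relative error of at most `ε`; (2) the number `r₂(n)` of the representations of `n` as a sum of two primes lies
between `(1 - ε) C₂` and `1 + ε` times `n² / (φ(n) log² n)`. -/
def Good (ε : ℝ) (V n : ℕ) : Prop :=
  (∀ y₁ y₂ : ℕ, y₁ < y₂ → y₂ ≤ n → (n : ℝ) / Real.log n ^ V ≤ (y₂ : ℝ) - y₁ →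
    |(reps n y₁ y₂ : ℝ) - sing n * ((y₂ : ℝ) - y₁) / Real.log n ^ 2| ≤
      ε * (sing n * ((y₂ : ℝ) - y₁) / Real.log n ^ 2)) ∧
  (1 - ε) * C₂ * ((n : ℝ) ^ 2 / (n.totient * Real.log n ^ 2)) ≤ reps n 0 n ∧
  (reps n 0 n : ℝ) ≤ (1 + ε) * ((n : ℝ) ^ 2 / (n.totient * Real.log n ^ 2))

/-- There is a positive even integer at a distance of at most `w` from `c` which is not good. -/
def Bad (ε : ℝ) (V : ℕ) (w : ℝ) (c : ℤ) : Prop :=
  ∃ n : ℕ, 0 < n ∧ Even n ∧ |(n : ℝ) - c| ≤ w ∧ ¬ Good ε V n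

/-- `f s x` does not depend on the coordinate `x s`, for all `s`; otherwise these functions are arbitrary. -/
def Free {k : ℕ} {X : Fin k → Type} (f : Fin k → (∀ i, X i) → ℤ) : Prop :=
  ∀ (s : Fin k) (x x' : ∀ i, X i), (∀ t, t ≠ s → x t = x' t) → f s x = f s x'

lemma C₂_nonneg : 0 ≤ C₂ := by
  unfold C₂
  apply Real.iInf_nonneg
  intro z
  apply prod_nonneg
  intro p hp
  rw [mem_filter, mem_Icc] at hp
  exact (Pool.Agent.TH894.SM.fac_pos p hp.1.1).le

lemma good_of (ε : ℝ) (V n : ℕ) (hn : 2 ≤ n) (hlog : 1 ≤ Real.log n) (h2 : 2 ∣ n) (hε : 0 < ε)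
    (h : Pool.Agent.W93.PG.WinP ε V n) : Good ε V n := by
  have hn0 : n ≠ 0 := by omega
  have hnr : (0 : ℝ) < n := by exact_mod_cast Nat.pos_of_ne_zero hn0
  have hl : 0 < Real.log n := by linarith
  have ht : (0 : ℝ) < n.totient := by exact_mod_cast Nat.totient_pos.2 (Nat.pos_of_ne_zero hn0)
  obtain ⟨s1, s2⟩ := Pool.Agent.TH894.SM.sing_tot n hn0 h2
  have hC := C₂_nonneg
  have hR : ∀ y₁ y₂, Pool.Agent.W93.PG.cnt n y₁ y₂ = reps n y₁ y₂ := fun _ _ => rfl
  have h1 := h 0 n (Nat.pos_of_ne_zero hn0) le_rfl (by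
    push_cast
    rw [sub_zero]
    exact div_le_self hnr.le (one_le_pow₀ hlog))
  rw [hR] at h1
  push_cast at h1
  rw [sub_zero] at h1
  have hs : Pool.Agent.H560R3.GB.sing n = sing n := rfl
  have hs2 : Pool.Agent.H560R3.GB.C₂ = C₂ := rfl
  rw [hs] at h1 s1 s2
  rw [hs2] at s1
  obtain ⟨Q, hQ⟩ : ∃ Q : ℝ, Q = n / Real.log n ^ 2 := ⟨_, rfl⟩
  have hQ0 : 0 < Q := by rw [hQ]; positivity
  have e : (n : ℝ) ^ 2 / (n.totient * Real.log n ^ 2) = n / n.totient * Q := by
    rw [hQ]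
    field_simp
  have hHL : sing n * (n : ℝ) / Real.log n ^ 2 = sing n * Q := by
    rw [hQ, mul_div_assoc]
  have hR0 : 0 < (n : ℝ) / n.totient := by positivity
  rw [hHL, abs_le] at h1
  refine ⟨h, ?_, ?_⟩
  · rw [e]
    rcases le_or_gt ε 1 with hε1 | hε1
    · have h3 : (1 - ε) * (C₂ * (n / n.totient) * Q) ≤ (1 - ε) * (sing n * Q) := by
        apply mul_le_mul_of_nonneg_left _ (by linarith)
        exact mul_le_mul_of_nonneg_right s1 hQ0.le
      have e2 : (1 - ε) * C₂ * (n / n.totient * Q) = (1 - ε) * (C₂ * (n / n.totient) * Q) := by ring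
      rw [e2]
      linarith [h1.1]
    · have h3 : (1 - ε) * C₂ * (n / n.totient * Q) ≤ 0 := by
        apply mul_nonpos_of_nonpos_of_nonneg _ (by positivity)
        exact mul_nonpos_of_nonpos_of_nonneg (by linarith) hC
      exact h3.trans (Nat.cast_nonneg _)
  · rw [e]
    have h3 : (1 + ε) * (sing n * Q) ≤ (1 + ε) * (n / n.totient * Q) := by
      apply mul_le_mul_of_nonneg_left _ (by linarith)
      exact mul_le_mul_of_nonneg_right s2 hQ0.le
    linarith [h1.2]

open Classical in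
/-- windows around families of small energy (library) -/
lemma family (p A B C V U : ℕ) (hp : 1 ≤ p) (ε : ℝ) (hε : 0 < ε) :
    ∃ N₀ : ℕ, ∀ N : ℕ, N₀ ≤ N → ∀ (ι : Type) [Fintype ι] (v : ι → ℤ), (∀ i, v i ≤ B * N) →
      (Pool.Agent.TH935.GF.En p v : ℝ) * N ≤ Real.log N ^ C * (Fintype.card ι : ℝ) ^ (2 * p) →
      (((univ : Finset ι).filter (fun i => Bad ε V (Real.log N ^ A) (v i))).card : ℝ) ≤
        Fintype.card ι / Real.log N ^ U := by
  obtain ⟨n1, h1⟩ := Pool.Agent.H373R2.T7.ev_L' 1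
  obtain ⟨N₀, h2⟩ := Pool.Agent.H96.PR.windows p (Good ε V) (fun B C U =>
    Pool.Agent.TH935.GF.transfer p B C U (Good ε V)
    (fun B C U => Pool.Agent.TH935.GF.fam_win p B C V U (n1 + 2) hp ε hε (Good ε V)
      (fun m hm h2 hw => good_of ε V m (by omega) (h1 m (by omega)) h2 hε hw))) A B C U
  refine ⟨N₀, fun N hN ι _ v hv hE => ?_⟩
  exact h2 N hN ι v hv hE _ (fun i hi => (mem_filter.1 hi).2)

open Classical in
/-- products of families -/
lemma products (k h A B C V U : ℕ) (ε δ : ℝ) (hε : 0 < ε) (hδ : 0 < δ) :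
    ∃ N₀ : ℕ, ∀ N : ℕ, N₀ ≤ N → ∀ (X : Fin (k + 2) → Type) [∀ i, Fintype (X i)] (a : ∀ i, X i → ℤ) (M : Fin (k + 2) → ℕ),
      (∀ i x, |a i x| ≤ M i) → (∀ i, (N : ℝ) ^ δ ≤ M i ∧ M i ≤ N ^ B) →
      (N : ℝ) ≤ Real.log N ^ C * ∏ i, (M i : ℝ) →
      (∀ i, (energy h (a i) : ℝ) * M i ≤ Real.log N ^ C * (Fintype.card (X i) : ℝ) ^ (2 * h)) →
      ∀ f : Fin (k + 2) → (∀ i, X i) → ℤ, Free f → (∀ x, ∏ i, a i (x i) + ∑ s, f s x ≤ B * N) →
      (((univ : Finset (∀ i, X i)).filter (fun x => Bad ε V (Real.log N ^ A) (∏ i, a i (x i) + ∑ s, f s x))).card : ℝ) ≤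
        Fintype.card (∀ i, X i) / Real.log N ^ U := by
  -- the order may be assumed to be positive
  obtain ⟨H, C', N₁, hH, h1⟩ := Pool.Agent.H96.PR.energy_main (h + 1) k C B (by omega) δ hδ
  obtain ⟨N₂, h2⟩ := family H A B C' V U hH ε hε
  refine ⟨N₁ + N₂, fun N hN X _ a M ha hM hNM hE f hf hv => ?_⟩
  refine h2 N (by omega) _ _ hv ?_
  refine h1 N (by omega) X a M f hM ha ?_ hNM hf
  intro i
  have h3 := hE i
  have h4 : energy h (a i) = Pool.Agent.TH935.GF.En h (a i) := rfl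
  rw [h4] at h3
  have h5 : (Pool.Agent.TH935.GF.En (h + 1) (a i) : ℝ) ≤ (Fintype.card (X i) : ℝ) ^ 2 * Pool.Agent.TH935.GF.En h (a i) := by
    exact_mod_cast Pool.Agent.H96.PR.En_succ h (a i)
  calc (Pool.Agent.TH935.GF.En (h + 1) (a i) : ℝ) * M i ≤
        (Fintype.card (X i) : ℝ) ^ 2 * Pool.Agent.TH935.GF.En h (a i) * M i := by gcongr
    _ = (Fintype.card (X i) : ℝ) ^ 2 * (Pool.Agent.TH935.GF.En h (a i) * M i) := by ring
    _ ≤ (Fintype.card (X i) : ℝ) ^ 2 * (Real.log N ^ C * (Fintype.card (X i) : ℝ) ^ (2 * h)) := by gcongr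
    _ = _ := by rw [mul_add, pow_add]; ring

open Classical in
/-- polynomials at dense sets of arguments -/
lemma polys (k A B C V U : ℕ) (ε δ : ℝ) (hε : 0 < ε) (hδ : 0 < δ) (g : Fin (k + 2) → Polynomial ℤ)
    (hg : ∀ i, 1 ≤ (g i).natDegree) :
    ∃ N₀ : ℕ, ∀ N : ℕ, N₀ ≤ N → ∀ (X : Fin (k + 2) → ℕ) (D : Fin (k + 2) → Finset ℕ),
      (∀ i, D i ⊆ Icc 1 (X i) ∧ (X i : ℝ) ≤ Real.log N ^ C * (D i).card) →
      (∀ i, (N : ℝ) ^ δ ≤ X i ∧ X i ≤ N ^ B) → (N : ℝ) ≤ Real.log N ^ C * ∏ i, (X i : ℝ) ^ (g i).natDegree →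
      ∀ f : Fin (k + 2) → (Fin (k + 2) → ℕ) → ℤ, Free f →
      (∀ x ∈ Fintype.piFinset D, ∏ i, (g i).eval (x i : ℤ) + ∑ s, f s x ≤ B * N) →
      (((Fintype.piFinset D).filter
        (fun x => Bad ε V (Real.log N ^ A) (∏ i, (g i).eval (x i : ℤ) + ∑ s, f s x))).card : ℝ) ≤
        (∏ i, ((D i).card : ℝ)) / Real.log N ^ U := by
  choose p c hc hp using fun i => Pool.Agent.TH823.Fam.energy_poly' (g i) (hg i)
  choose S hS using fun i => Pool.Agent.TH823.Fam.poly_size (g i)
  obtain ⟨h, hh⟩ : ∃ h : ℕ, ∀ i, p i ≤ h := ⟨∑ i, p i, fun i => single_le_sum (f := p) (fun _ _ => Nat.zero_le _) (mem_univ i)⟩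
  obtain ⟨B', hB'⟩ : ∃ B' : ℕ, ∀ i, B * (g i).natDegree + 1 ≤ B' ∧ B ≤ B' :=
    ⟨∑ i, (B * (g i).natDegree + 1) + B, fun i => ⟨(single_le_sum (f := fun i => B * (g i).natDegree + 1)
      (fun _ _ => Nat.zero_le _) (mem_univ i)).trans (Nat.le_add_right _ _), Nat.le_add_left _ _⟩⟩
  obtain ⟨c', hc'⟩ : ∃ c' : ℝ, ∀ i, (S i + 1) * c i ≤ c' := ⟨∑ i, (S i + 1) * c i, fun i =>
    single_le_sum (f := fun i => (S i + 1) * c i) (fun j _ => mul_nonneg (by positivity) (hc j).le) (mem_univ i)⟩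
  obtain ⟨C', hC'⟩ : ∃ C' : ℕ, C' = 2 * h * C + 1 + C := ⟨_, rfl⟩
  obtain ⟨N₁, h1⟩ := products k h A B' C' V U ε δ hε hδ
  obtain ⟨N₂, h2⟩ := Pool.Agent.H373R2.T7.ev_L' (c' + 1)
  obtain ⟨N₃, h3⟩ := Pool.Agent.H373R2.T7.ev_L' 1
  refine ⟨N₁ + N₂ + N₃ + ∑ i, (S i + 1) + 2, fun N hN X D hD hX hNX f hf hv => ?_⟩
  have hLc := h2 N (by omega)
  have hL1 := h3 N (by omega)
  obtain ⟨L, hLd⟩ : ∃ L, L = Real.log (N : ℝ) := ⟨_, rfl⟩
  have hp1 := h1 N (by omega)
  rw [← hLd] at hLc hL1 hD hNX hp1 ⊢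
  have hL0 : 0 < L := by linarith
  have hN2 : (2 : ℝ) ≤ N := by exact_mod_cast (by omega : 2 ≤ N)
  have hN1 : 1 ≤ N := by omega
  have hX1 : ∀ i, 1 ≤ X i := by
    intro i
    have : (1 : ℝ) ≤ X i := (Real.one_le_rpow (by linarith) hδ.le).trans (hX i).1
    exact_mod_cast this
  -- the families
  have hkey := hp1 (fun i => {m // m ∈ D i}) (fun i m => (g i).eval ((m : ℕ) : ℤ)) (fun i => (S i + 1) * X i ^ (g i).natDegree)
    ?_ ?_ ?_ ?_ (fun s x => f s (fun i => (x i : ℕ))) ?_ ?_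
  · -- transfer
    have e1 : (Fintype.card (∀ i, {m // m ∈ D i}) : ℝ) = ∏ i, ((D i).card : ℝ) := by
      rw [Fintype.card_pi]
      push_cast
      exact prod_congr rfl fun i _ => by rw [Fintype.card_coe]
    rw [e1] at hkey
    refine le_trans ?_ hkey
    rw [Nat.cast_le]
    apply card_le_card_of_surjOn (fun x i => ((x i : {m // m ∈ D i}) : ℕ))
    intro x hx
    rw [mem_coe, mem_filter, Fintype.mem_piFinset] at hx
    refine ⟨fun i => ⟨x i, hx.1 i⟩, ?_, rfl⟩
    rw [mem_coe, mem_filter]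
    exact ⟨mem_univ _, hx.2⟩
  · intro i m
    have h4 := hS i (X i) (hX1 i) m ((hD i).1 m.2)
    push_cast
    have h5 : (0 : ℤ) ≤ (X i : ℤ) ^ (g i).natDegree := by positivity
    nlinarith
  · intro i
    constructor
    · have h4 : (X i : ℝ) ≤ (X i : ℝ) ^ (g i).natDegree := by
        have : (1 : ℝ) ≤ X i := by exact_mod_cast hX1 i
        exact le_self_pow₀ this (by have := hg i; omega)
      have h5 : (0 : ℝ) ≤ S i := Nat.cast_nonneg _
      have h6 : (0 : ℝ) ≤ (X i : ℝ) ^ (g i).natDegree := by positivity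
      push_cast
      nlinarith [(hX i).1]
    · have h4 : S i + 1 ≤ N := by
        have h9 : S i + 1 ≤ ∑ i, (S i + 1) := single_le_sum (f := fun i => S i + 1) (fun _ _ => Nat.zero_le _) (mem_univ i)
        omega
      calc (S i + 1) * X i ^ (g i).natDegree ≤ N * (N ^ B) ^ (g i).natDegree := by gcongr; exact (hX i).2
        _ = N ^ (B * (g i).natDegree + 1) := by rw [← pow_mul, pow_succ, mul_comm]
        _ ≤ N ^ B' := Nat.pow_le_pow_right hN1 (hB' i).1
  · push_cast
    rw [hC', pow_add]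
    calc (N : ℝ) ≤ L ^ C * ∏ i, (X i : ℝ) ^ (g i).natDegree := hNX
      _ ≤ (L ^ (2 * h * C + 1) * L ^ C) * ∏ i, ((S i + 1 : ℝ) * (X i : ℝ) ^ (g i).natDegree) := by
        gcongr with i _
        · exact le_mul_of_one_le_left (by positivity) (one_le_pow₀ hL1)
        · have : (1 : ℝ) ≤ S i + 1 := by
            have : (0 : ℝ) ≤ S i := Nat.cast_nonneg _
            linarith
          exact le_mul_of_one_le_left (by positivity) this
  · intro i
    obtain ⟨j, hj⟩ : ∃ j, h = p i + j := ⟨h - p i, by have := hh i; omega⟩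
    obtain ⟨dd, hdd⟩ : ∃ dd : ℝ, dd = (D i).card := ⟨_, rfl⟩
    have hdd0 : 0 ≤ dd := by rw [hdd]; positivity
    have h5 := Pool.Agent.H96.PR.energy_sub (p i) (X i) (fun m => (g i).eval (m : ℤ)) (D i) (hD i).1
    have h6 := Pool.Agent.H96.PR.En_mono (p i) j (fun m : {m // m ∈ D i} => (g i).eval ((m : ℕ) : ℤ))
    rw [← hj, Fintype.card_coe] at h6
    have h7 := hp i (X i) (hX1 i) 0
    simp only [zero_add] at h7
    have h8 : (Pool.Agent.TH935.GF.En h (fun m : {m // m ∈ D i} => (g i).eval ((m : ℕ) : ℤ)) : ℝ) ≤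
        dd ^ (2 * j) * Pool.Agent.H373R2.T7.energy (p i) (X i) (fun m => (g i).eval (m : ℤ)) := by
      rw [hdd]
      exact_mod_cast h6.trans (Nat.mul_le_mul_left _ h5)
    have hXd : (X i : ℝ) ≤ L ^ C * dd := by rw [hdd]; exact (hD i).2
    have hX0 : (0 : ℝ) ≤ X i := Nat.cast_nonneg _
    have hS0 : (0 : ℝ) ≤ S i := Nat.cast_nonneg _
    have e0 : energy h (fun m : {m // m ∈ D i} => (g i).eval ((m : ℕ) : ℤ)) =
      Pool.Agent.TH935.GF.En h (fun m : {m // m ∈ D i} => (g i).eval ((m : ℕ) : ℤ)) := rfl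
    rw [e0, Fintype.card_coe, ← hdd]
    push_cast
    have hpi : 2 * p i * C ≤ 2 * h * C := Nat.mul_le_mul_right _ (Nat.mul_le_mul_left _ (hh i))
    calc (Pool.Agent.TH935.GF.En h (fun m : {m // m ∈ D i} => (g i).eval ((m : ℕ) : ℤ)) : ℝ) * ((S i + 1) * (X i : ℝ) ^ (g i).natDegree) ≤
          (dd ^ (2 * j) * Pool.Agent.H373R2.T7.energy (p i) (X i) (fun m => (g i).eval (m : ℤ))) * ((S i + 1) * (X i : ℝ) ^ (g i).natDegree) := by
            gcongr
      _ = dd ^ (2 * j) * (S i + 1) * (Pool.Agent.H373R2.T7.energy (p i) (X i) (fun m => (g i).eval (m : ℤ)) * (X i : ℝ) ^ (g i).natDegree) := by ring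
      _ ≤ dd ^ (2 * j) * (S i + 1) * (c i * (X i : ℝ) ^ (2 * p i)) := by gcongr
      _ ≤ dd ^ (2 * j) * (S i + 1) * (c i * (L ^ C * dd) ^ (2 * p i)) := by
            have := (hc i).le
            gcongr
      _ = ((S i + 1) * c i) * L ^ (2 * p i * C) * (dd ^ (2 * j) * dd ^ (2 * p i)) := by
            rw [mul_pow, ← pow_mul, mul_comm C]
            ring
      _ ≤ L * L ^ (2 * h * C) * (dd ^ (2 * j) * dd ^ (2 * p i)) := by
            have h9 := hc' i
            gcongr
            linarith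
      _ = L ^ (2 * h * C + 1) * dd ^ (2 * h) := by
            rw [← pow_add dd, hj]
            ring
      _ ≤ L ^ C' * dd ^ (2 * h) := by
            gcongr
            omega
  · intro s x x' hxx
    exact hf s _ _ (fun t ht => by rw [hxx t ht])
  · intro x
    have h4 := hv (fun i => (x i : ℕ)) (Fintype.mem_piFinset.2 fun i => (x i).2)
    refine h4.trans ?_
    have h5 : (B : ℤ) ≤ B' := by exact_mod_cast (hB' 0).2
    have h6 : (0 : ℤ) ≤ N := by positivity
    nlinarith

open Classical in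
/-- Let `k ≥ 2`, `A`, `B`, `C`, `V`, `U`, `h` be natural numbers, `ε > 0` and `δ > 0`. The following two statements hold.

(1) For all sufficiently large `N`: let `a i : X i → ℤ` (`i = 1, ..., k`) be any finite families of integers with
`|a i| ≤ M i`, `N ^ δ ≤ M i ≤ N ^ B`, `M 1 ⋯ M k ≥ N / log ^ C N`, whose additive energies of order `h` are at most
`log ^ C N` times `|X i| ^ (2 h) / M i` (up to the logarithms the smallest possible value). Let `f 1, ..., f k` be
ARBITRARY integer valued functions on the product of the `X i` such that `f s (x)` does not depend on `x s`, and such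
that `a 1 (x 1) ⋯ a k (x k) + f 1 (x) + ... + f k (x) ≤ B N` for all `x`. Then for all `x`, with at most
`1 / log ^ U N` times the number of all `x` as exceptions, ALL positive even integers `n` at a distance of at most
`log ^ A N` from `a 1 (x 1) ⋯ a k (x k) + f 1 (x) + ... + f k (x)` satisfy `Good ε V n`.

(2) Let `g 1, ..., g k` be nonconstant polynomials with integer coefficients. For all sufficiently large `N`, all
`X i` with `N ^ δ ≤ X i ≤ N ^ B` and `∏ (X i) ^ deg (g i) ≥ N / log ^ C N`, all sets `D i ⊆ {1, ..., X i}` with at least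
`X i / log ^ C N` elements (for instance: the primes) and ARBITRARY functions `f 1, ..., f k` as in (1), such that
`g 1 (x 1) ⋯ g k (x k) + f 1 (x) + ... + f k (x) ≤ B N` on the box `D 1 × ... × D k`: for all `x` in this box, with at
most `1 / log ^ U N` times the number of all `x` as exceptions, ALL positive even integers `n` at a distance of at most
`log ^ A N` from `g 1 (x 1) ⋯ g k (x k) + f 1 (x) + ... + f k (x)` satisfy `Good ε V n`. -/
theorem result (k : ℕ) (hk : 2 ≤ k) (A B C V U h : ℕ) (ε δ : ℝ) (hε : 0 < ε) (hδ : 0 < δ) :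
    (∃ N₀ : ℕ, ∀ N : ℕ, N₀ ≤ N → ∀ (X : Fin k → Type) [∀ i, Fintype (X i)] (a : ∀ i, X i → ℤ) (M : Fin k → ℕ),
      (∀ i x, |a i x| ≤ M i) → (∀ i, (N : ℝ) ^ δ ≤ M i ∧ M i ≤ N ^ B) →
      (N : ℝ) ≤ Real.log N ^ C * ∏ i, (M i : ℝ) →
      (∀ i, (energy h (a i) : ℝ) * M i ≤ Real.log N ^ C * (Fintype.card (X i) : ℝ) ^ (2 * h)) →
      ∀ f : Fin k → (∀ i, X i) → ℤ, Free f → (∀ x, ∏ i, a i (x i) + ∑ s, f s x ≤ B * N) →
      (((univ : Finset (∀ i, X i)).filter (fun x => Bad ε V (Real.log N ^ A) (∏ i, a i (x i) + ∑ s, f s x))).card : ℝ) ≤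
        Fintype.card (∀ i, X i) / Real.log N ^ U) ∧
    (∀ g : Fin k → Polynomial ℤ, (∀ i, 1 ≤ (g i).natDegree) →
      ∃ N₀ : ℕ, ∀ N : ℕ, N₀ ≤ N → ∀ (X : Fin k → ℕ) (D : Fin k → Finset ℕ),
      (∀ i, D i ⊆ Icc 1 (X i) ∧ (X i : ℝ) ≤ Real.log N ^ C * (D i).card) →
      (∀ i, (N : ℝ) ^ δ ≤ X i ∧ X i ≤ N ^ B) → (N : ℝ) ≤ Real.log N ^ C * ∏ i, (X i : ℝ) ^ (g i).natDegree →
      ∀ f : Fin k → (Fin k → ℕ) → ℤ, Free f →
      (∀ x ∈ Fintype.piFinset D, ∏ i, (g i).eval (x i : ℤ) + ∑ s, f s x ≤ B * N) →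
      (((Fintype.piFinset D).filter
        (fun x => Bad ε V (Real.log N ^ A) (∏ i, (g i).eval (x i : ℤ) + ∑ s, f s x))).card : ℝ) ≤
        (∏ i, ((D i).card : ℝ)) / Real.log N ^ U) := by
  obtain ⟨k, rfl⟩ : ∃ k', k = k' + 2 := ⟨k - 2, by omega⟩
  exact ⟨products k h A B C V U ε δ hε hδ, fun g hg => polys k A B C V U ε δ hε hδ g hg⟩

end Pool.Agent.Results.MP_629a14_nt.PerturbedProducts
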