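import Pool.Agent.H56.PD.Fin
import Pool.Graph.R_seed8.TH894.SM0

/-!
# Goldbach representation numbers of all even integers near the values of polynomials at integers with restricted
# digits

`F` is ANY integer polynomial of positive degree in any number of variables (for instance `x ^ 2`, `x y`, a norm form,
a determinant, a sum of like powers). For all but few vectors `x` all of whose digits in base `b` are restricted to
arbitrary given sets with at least two elements (for instance: all digits `0` or `1`), ALL even integers at a distance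
of at most `k ^ E` from `c + F(x)` satisfy the asymptotic formula of Hardy and Littlewood for the number of
representations as a sum of two primes. The set of the values is very thin: for one variable, degree `D` and two
allowed digits there are at most `2 ^ k` values among the integers up to a constant times `b ^ (k D)`.

Method. The exponential sums over these values are not small, and the additive energy of the values is not minimal up
to powers of the logarithm; instead it is shown that the large spectrum of the values is thin (module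
`Pool.Agent.H56.PD`): Weyl differencing with respect to short blocks of the lowest and of the highest digits (in all
combinations) gives, for many frequencies at the same time, common integers at all scales which multiply these
frequencies to near integers. The conclusion is then drawn with the theorem of the library on Goldbach's problem
for random integers with a thin large spectrum (`Pool.Agent.Y885.tl_goldbach`).

Definitions used from `Pool.Agent.H560R3.GB` (library): `C₂`: the twin prime constant
`∏_{p > 2} (1 - 1 / (p - 1) ^ 2)`; `sing n`: the singular series `2 C₂ ∏_{p ∣ n, p > 2} (p - 1) / (p - 2)`; `g n`: the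
number of ordered representations of `n` as a sum of two primes (`r₂(n; ℙ)` in the problem);
`HL n = sing n * n / log ^ 2 n`: the prediction of Hardy and Littlewood for `g n`.
-/

set_option autoImplicit false

namespace Pool.Agent.Results.MP_629a14_nt.PolynomialsOfRestrictedDigits

open Finset Pool.Agent.H560R3.GB

/-- the integers `x < b ^ k` whose digits in base `b` are allowed: the digit at `b ^ j` is in `A j` for all `j < k` -/
def withDigits (b k : ℕ) (A : ℕ → Finset ℕ) : Finset ℕ := (range (b ^ k)).filter (fun x => ∀ j < k, x / b ^ j % b ∈ A j)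

/-- (1) the number of representations of `m` as a sum of two primes agrees with the prediction of Hardy
and Littlewood up to a relative error of at most `ε`; (2) it lies between `(1 - ε) C₂` and `1 + ε` times
`m² / (φ(m) log² m)`. -/
def Holds (ε : ℝ) (m : ℕ) : Prop :=
  |(g m : ℝ) - HL m| ≤ ε * HL m ∧
  (1 - ε) * C₂ * ((m : ℝ) ^ 2 / (m.totient * Real.log m ^ 2)) ≤ g m ∧
  (g m : ℝ) ≤ (1 + ε) * ((m : ℝ) ^ 2 / (m.totient * Real.log m ^ 2))

lemma C₂_nonneg : 0 ≤ C₂ := by
  unfold C₂
  apply Real.iInf_nonneg
  intro z
  apply prod_nonneg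
  intro p hp
  rw [mem_filter, mem_Icc] at hp
  exact (Pool.Agent.TH894.SM.fac_pos p hp.1.1).le

lemma holds_of (ε : ℝ) (hε : 0 < ε) (n : ℕ) (hn : 2 ≤ n) (h2 : 2 ∣ n)
    (h1 : |(g n : ℝ) - HL n| ≤ ε * HL n) : Holds ε n := by
  have hn0 : n ≠ 0 := by omega
  have hnr : (0 : ℝ) < n := by exact_mod_cast Nat.pos_of_ne_zero hn0
  have hl : 0 < Real.log n := Real.log_pos (by exact_mod_cast (by omega : 1 < n))
  have ht : (0 : ℝ) < n.totient := by exact_mod_cast Nat.totient_pos.2 (Nat.pos_of_ne_zero hn0)
  obtain ⟨s1, s2⟩ := Pool.Agent.TH894.SM.sing_tot n hn0 h2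
  have hC := C₂_nonneg
  obtain ⟨Q, hQ⟩ : ∃ Q : ℝ, Q = n / Real.log n ^ 2 := ⟨_, rfl⟩
  have hQ0 : 0 < Q := by rw [hQ]; positivity
  have e : (n : ℝ) ^ 2 / (n.totient * Real.log n ^ 2) = n / n.totient * Q := by
    rw [hQ]
    field_simp
  have hHL : HL n = sing n * Q := by
    unfold HL
    rw [hQ]
  have hR0 : 0 < (n : ℝ) / n.totient := by positivity
  refine ⟨h1, ?_, ?_⟩
  · rw [e]
    rw [hHL, abs_le] at h1
    rcases le_or_gt ε 1 with hε1 | hε1
    · have h3 : (1 - ε) * (C₂ * (n / n.totient) * Q) ≤ (1 - ε) * (sing n * Q) := by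
        apply mul_le_mul_of_nonneg_left _ (by linarith)
        exact mul_le_mul_of_nonneg_right s1 hQ0.le
      have e2 : (1 - ε) * C₂ * (n / n.totient * Q) = (1 - ε) * (C₂ * (n / n.totient) * Q) := by ring
      rw [e2]
      linarith [h1.1]
    · have h3 : (1 - ε) * C₂ * (n / n.totient * Q) ≤ 0 := by
        apply mul_nonpos_of_nonpos_of_nonneg _ (by positivity)
        exact mul_nonpos_of_nonpos_of_nonneg (by linarith) hC
      exact h3.trans (Nat.cast_nonneg _)
  · rw [e]
    rw [hHL, abs_le] at h1
    have h3 : (1 + ε) * (sing n * Q) ≤ (1 + ε) * (n / n.totient * Q) := by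
      apply mul_le_mul_of_nonneg_left _ (by linarith)
      exact mul_le_mul_of_nonneg_right s2 hQ0.le
    linarith [h1.2]

open Classical in
/-- Let `F` be a polynomial with integer coefficients of total degree `D ≥ 1` in `n` variables, `b ≥ 2`,
`B`, `E`, `U` natural numbers and `ε > 0`. For all sufficiently large `k`, for ARBITRARY sets `A i j ⊆ {0, ..., b - 1}`
(`1 ≤ i ≤ n`, `0 ≤ j < k`) with at least two elements and for every integer `c` with `|c| ≤ B b ^ (k D)`, all but at most
`1 / k ^ U` of the vectors `x = (x 1, ..., x n)`, `0 ≤ x i < b ^ k`, for which the digit of `x i` at `b ^ j` is in `A i j` for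
all `i` and `j`, have the property that ALL even integers `m > 0` with `|m - (c + F(x))| ≤ k ^ E` satisfy `Holds ε m`. -/
theorem result (b n : ℕ) (hb : 2 ≤ b) (F : MvPolynomial (Fin n) ℤ) (hF : 1 ≤ F.totalDegree) (B E U : ℕ) (ε : ℝ) (hε : 0 < ε) :
    ∃ k₀ : ℕ, ∀ k : ℕ, k₀ ≤ k → ∀ A : Fin n → ℕ → Finset ℕ, (∀ i, ∀ j < k, A i j ⊆ range b ∧ 2 ≤ (A i j).card) →
      ∀ c : ℤ, |c| ≤ (B : ℤ) * (b : ℤ) ^ (k * F.totalDegree) →
      (((Fintype.piFinset fun i => withDigits b k (A i)).filter fun x : Fin n → ℕ => ¬ ∀ m : ℕ, 0 < m → Even m →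
        |(m : ℤ) - (c + MvPolynomial.eval (fun i => (x i : ℤ)) F)| ≤ (k : ℤ) ^ E → Holds ε m).card : ℝ) ≤
        ((Fintype.piFinset fun i => withDigits b k (A i)).card : ℝ) / (k : ℝ) ^ U := by
  obtain ⟨k₀, hk₀⟩ := Pool.Agent.H56.PD.main b n hb F hF B E U ε hε
  refine ⟨k₀, fun k hk A hA c hc => le_trans ?_ (hk₀ k hk A hA c hc)⟩
  have h1 : ((Fintype.piFinset fun i => withDigits b k (A i)).filter fun x : Fin n → ℕ => ¬ ∀ m : ℕ, 0 < m → Even m →
        |(m : ℤ) - (c + MvPolynomial.eval (fun i => (x i : ℤ)) F)| ≤ (k : ℤ) ^ E → Holds ε m).card ≤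
      ((Fintype.piFinset fun i => Pool.Agent.H56.PD.withDigits b k (A i)).filter fun x => ¬ ∀ m : ℕ, 0 < m → Even m →
        |(m : ℤ) - (c + MvPolynomial.eval (fun i => (x i : ℤ)) F)| ≤ (k : ℤ) ^ E →
        |(g m : ℝ) - HL m| ≤ ε * HL m).card := by
    apply card_le_card
    intro x hx
    rw [mem_filter] at hx ⊢
    refine ⟨hx.1, fun h => hx.2 fun m hm hm2 hm3 => ?_⟩
    have h2 : 2 ∣ m := hm2.two_dvd
    exact holds_of ε hε m (Nat.le_of_dvd hm h2) h2 (h m hm hm2 hm3)
  exact_mod_cast h1

end Pool.Agent.Results.MP_629a14_nt.PolynomialsOfRestrictedDigits
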